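import Pool.Agent.Lib_helper82.CN.Defs

/-! CN, block NA: the integral basis. -/

set_option autoImplicit false

namespace Pool.Agent.CN

open NumberField IsDedekindDomain
open Pool.Agent.LK (PQ)

theorem na_unit {K : Type} [Field K] [NumberField K] (b : Module.Basis (Fin 2) ℤ (𝓞 K))
    {d : ℤ} {x : 𝓞 K} (h : (d : 𝓞 K) * x = 1) : IsUnit d := by
  have h1 : IsUnit ((d : ℤ) : 𝓞 K) := IsUnit.of_mul_eq_one _ h
  have h2 : IsUnit (Algebra.norm ℤ ((d : ℤ) : 𝓞 K)) := h1.map (Algebra.norm ℤ)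
  have h3 : ((d : ℤ) : 𝓞 K) = algebraMap ℤ (𝓞 K) d := by simp
  rw [h3, Algebra.norm_algebraMap_of_basis b, Fintype.card_fin] at h2
  exact (isUnit_pow_iff (by norm_num)).1 h2

/-- the trace and the discriminant of a basis `1, ω` -/
theorem na_disc {K : Type} [Field K] [NumberField K] {ω : 𝓞 K} {t n : ℤ}
    (b : Module.Basis (Fin 2) ℤ (𝓞 K)) (h0 : b 0 = 1) (h1 : b 1 = ω)
    (hsq : ω ^ 2 = (t : 𝓞 K) * ω - (n : 𝓞 K)) : discr K = t ^ 2 - 4 * n := by
  have t1 : Algebra.trace ℤ (𝓞 K) 1 = 2 := by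
    have h2 : (1 : 𝓞 K) = algebraMap ℤ (𝓞 K) 1 := by simp
    rw [h2, Algebra.trace_algebraMap_of_basis b]
    simp
  have hw0 : b.repr ω = Finsupp.single 1 1 := by rw [← h1, b.repr_self]
  have hw1 : ω * ω = t • b 1 - n • b 0 := by
    rw [h0, h1, ← sq, hsq]
    simp
  have t2 : Algebra.trace ℤ (𝓞 K) ω = t := by
    rw [Algebra.trace_eq_matrix_trace b, Matrix.trace_fin_two, Algebra.leftMulMatrix_eq_repr_mul,
      Algebra.leftMulMatrix_eq_repr_mul, h0, h1, mul_one, hw0, hw1, map_sub, map_smul, map_smul,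
      b.repr_self, b.repr_self]
    simp
  have t3 : Algebra.trace ℤ (𝓞 K) (ω * ω) = t * t - n * 2 := by
    rw [hw1, map_sub, map_smul, map_smul, h0, h1, t1, t2]
    simp
  rw [← NumberField.discr_eq_discr K b, Algebra.discr_def, Matrix.det_fin_two]
  simp only [Algebra.traceMatrix_apply, Algebra.traceForm_apply, h0, h1, one_mul, mul_one]
  rw [t1, t2, t3]
  ring

/-- block NA: the integral basis -/
theorem qb_exists (K : Type) [Field K] [NumberField K] (hK : Module.finrank ℚ K = 2) :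
    ∃ (ω : 𝓞 K) (t n : ℤ), QB K ω t n := by
  have hfr : Module.finrank ℤ (𝓞 K) = 2 := by rw [RingOfIntegers.rank, hK]
  let b : Module.Basis (Fin 2) ℤ (𝓞 K) := Module.finBasisOfFinrankEq ℤ (𝓞 K) hfr
  obtain ⟨u, hu⟩ : ∃ u, u = b.repr 1 0 := ⟨_, rfl⟩
  obtain ⟨v, hv⟩ : ∃ v, v = b.repr 1 1 := ⟨_, rfl⟩
  have hrep : ∀ x : 𝓞 K, x = b.repr x 0 • b 0 + b.repr x 1 • b 1 := by
    intro x
    have := b.sum_repr x
    rw [Fin.sum_univ_two] at this
    exact this.symm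
  have h1 : (1 : 𝓞 K) = (u : 𝓞 K) * b 0 + (v : 𝓞 K) * b 1 := by
    have := hrep 1
    rw [← hu, ← hv] at this
    rw [this, zsmul_eq_mul, zsmul_eq_mul]
  -- the coordinates of `1` are coprime
  have hg : IsUnit ((Int.gcd u v : ℕ) : ℤ) := by
    obtain ⟨u', hu'⟩ := Int.gcd_dvd_left (a := u) (b := v)
    obtain ⟨v', hv'⟩ := Int.gcd_dvd_right (a := u) (b := v)
    apply na_unit b (x := (u' : 𝓞 K) * b 0 + (v' : 𝓞 K) * b 1)
    rw [h1]
    have e1 : (u : 𝓞 K) = (((Int.gcd u v : ℕ) : ℤ) : 𝓞 K) * (u' : 𝓞 K) := by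
      rw [← Int.cast_mul, ← hu']
    have e2 : (v : 𝓞 K) = (((Int.gcd u v : ℕ) : ℤ) : 𝓞 K) * (v' : 𝓞 K) := by
      rw [← Int.cast_mul, ← hv']
    rw [e1, e2]
    ring
  have hg1 : Int.gcd u v = 1 := by
    rw [Int.isUnit_iff] at hg
    omega
  obtain ⟨x, hx⟩ : ∃ x, x = Int.gcdA u v := ⟨_, rfl⟩
  obtain ⟨y, hy⟩ : ∃ y, y = Int.gcdB u v := ⟨_, rfl⟩
  have hbez : u * x + v * y = 1 := by
    have := Int.gcd_eq_gcd_ab u v
    rw [hg1] at this
    rw [hx, hy, ← this]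
    norm_num
  have hbezK : (u : 𝓞 K) * x + (v : 𝓞 K) * y = 1 := by exact_mod_cast congrArg (Int.cast : ℤ → 𝓞 K) hbez
  obtain ⟨ω, hω⟩ : ∃ ω : 𝓞 K, ω = -(y : 𝓞 K) * b 0 + (x : 𝓞 K) * b 1 := ⟨_, rfl⟩
  have hb0 : b 0 = (x : 𝓞 K) - (v : 𝓞 K) * ω := by
    rw [hω]
    linear_combination (-(b 0)) * hbezK - (x : 𝓞 K) * h1
  have hb1 : b 1 = (y : 𝓞 K) + (u : 𝓞 K) * ω := by
    rw [hω]
    linear_combination (-(b 1)) * hbezK - (y : 𝓞 K) * h1
  have hex : ∀ z : 𝓞 K, ∃ a c : ℤ, z = (a : 𝓞 K) + (c : 𝓞 K) * ω := by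
    intro z
    refine ⟨b.repr z 0 * x + b.repr z 1 * y, -(b.repr z 0) * v + b.repr z 1 * u, ?_⟩
    conv_lhs => rw [hrep z, zsmul_eq_mul, zsmul_eq_mul, hb0, hb1]
    push_cast
    ring
  have huq : ∀ a c : ℤ, (a : 𝓞 K) + (c : 𝓞 K) * ω = 0 → a = 0 ∧ c = 0 := by
    intro a c h
    have h2 : (a * u - c * y) • b 0 + (a * v + c * x) • b 1 = 0 := by
      rw [zsmul_eq_mul, zsmul_eq_mul, ← h, hω]
      push_cast
      linear_combination (-(a : 𝓞 K)) * h1
    have hli := b.linearIndependent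
    rw [Fintype.linearIndependent_iff] at hli
    have h3 := hli ![a * u - c * y, a * v + c * x] (by
      rw [Fin.sum_univ_two]
      exact h2)
    have h4 : a * u - c * y = 0 := h3 0
    have h5 : a * v + c * x = 0 := h3 1
    constructor
    · linear_combination (-a) * hbez + x * h4 + y * h5
    · linear_combination (-c) * hbez + (-v) * h4 + u * h5
  obtain ⟨a, t, hat⟩ := hex (ω ^ 2)
  have hsq : ω ^ 2 = (t : 𝓞 K) * ω - ((-a : ℤ) : 𝓞 K) := by
    rw [hat]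
    push_cast
    ring
  -- the basis `1, ω`
  have hli : LinearIndependent ℤ ![(1 : 𝓞 K), ω] := by
    rw [Fintype.linearIndependent_iff]
    intro g hg
    rw [Fin.sum_univ_two] at hg
    have h2 := huq (g 0) (g 1) (by
      rw [← hg]
      simp)
    intro i
    fin_cases i
    · exact h2.1
    · exact h2.2
  have hsp : ⊤ ≤ Submodule.span ℤ (Set.range ![(1 : 𝓞 K), ω]) := by
    intro z _
    obtain ⟨c, d, hcd⟩ := hex z
    rw [hcd]
    apply Submodule.add_mem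
    · have h2 : (c : 𝓞 K) = c • (1 : 𝓞 K) := by simp
      rw [h2]
      exact Submodule.smul_mem _ _ (Submodule.subset_span ⟨0, rfl⟩)
    · rw [← zsmul_eq_mul]
      exact Submodule.smul_mem _ _ (Submodule.subset_span ⟨1, rfl⟩)
  refine ⟨ω, t, -a, hsq, ?_, hex, huq⟩
  exact na_disc (Module.Basis.mk hli hsp) (by simp) (by simp) hsq

end Pool.Agent.CN
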