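import Pool.Agent.Lib_helper82.CN.Defs

/-! CN, block ND: the primes above `p`. -/

set_option autoImplicit false

namespace Pool.Agent.CN

open NumberField IsDedekindDomain
open Pool.Agent.LK (PQ)

theorem nd_norm (K : Type) [Field K] [NumberField K] (hK : Module.finrank ℚ K = 2) (p : ℕ) :
    Ideal.absNorm (Ideal.span {(p : 𝓞 K)}) = p ^ 2 := by
  have hfr : Module.finrank ℤ (𝓞 K) = 2 := by rw [RingOfIntegers.rank, hK]
  let b : Module.Basis (Fin 2) ℤ (𝓞 K) := Module.finBasisOfFinrankEq ℤ (𝓞 K) hfr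
  have h3 : (p : 𝓞 K) = algebraMap ℤ (𝓞 K) p := by simp
  rw [Ideal.absNorm_span_singleton, h3, Algebra.norm_algebraMap_of_basis b, Fintype.card_fin,
    Int.natAbs_pow, Int.natAbs_natCast]

theorem nd_eq {K : Type} [Field K] [NumberField K] (u v : HeightOneSpectrum (𝓞 K))
    (h : v.asIdeal ≤ u.asIdeal) : u = v := by
  have hm : v.asIdeal.IsMaximal := v.isMaximal
  exact (HeightOneSpectrum.ext (hm.eq_of_le u.isPrime.ne_top h)).symm

/-- block ND: the primes above `p` -/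
theorem qb_above (K : Type) [Field K] [NumberField K] (hK : Module.finrank ℚ K = 2) {p : ℕ}
    (hp : p.Prime) :
    (∃ v w : HeightOneSpectrum (𝓞 K), v ≠ w ∧ Ideal.absNorm v.asIdeal = p ∧
      Ideal.absNorm w.asIdeal = p ∧
      ∀ u : HeightOneSpectrum (𝓞 K), (p : 𝓞 K) ∈ u.asIdeal ↔ u = v ∨ u = w) ∨
    (∃ v : HeightOneSpectrum (𝓞 K), Ideal.absNorm v.asIdeal = p ∧
      ∀ u : HeightOneSpectrum (𝓞 K), (p : 𝓞 K) ∈ u.asIdeal ↔ u = v) ∨
    (∃ v : HeightOneSpectrum (𝓞 K), Ideal.absNorm v.asIdeal = p ^ 2 ∧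
      ∀ u : HeightOneSpectrum (𝓞 K), (p : 𝓞 K) ∈ u.asIdeal ↔ u = v) := by
  have hp0 : (p : 𝓞 K) ≠ 0 := by exact_mod_cast hp.ne_zero
  obtain ⟨I, hI⟩ : ∃ I : Ideal (𝓞 K), I = Ideal.span {(p : 𝓞 K)} := ⟨_, rfl⟩
  have hn : Ideal.absNorm I = p ^ 2 := by rw [hI, nd_norm K hK]
  have hp2 : p ^ 2 ≠ 1 := by
    intro h
    exact hp.one_lt.ne' (by simpa using h)
  have htop : I ≠ ⊤ := by
    intro h
    rw [h, Ideal.absNorm_top] at hn
    exact hp2 hn.symm
  obtain ⟨P, hPm, hIP⟩ := Ideal.exists_le_maximal I htop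
  have hpI : (p : 𝓞 K) ∈ I := by rw [hI]; exact Ideal.mem_span_singleton_self _
  have hPb : P ≠ ⊥ := by
    intro h
    have h2 := hIP hpI
    rw [h, Ideal.mem_bot] at h2
    exact hp0 h2
  obtain ⟨v, hv⟩ : ∃ v : HeightOneSpectrum (𝓞 K), v.asIdeal = P := ⟨⟨P, hPm.isPrime, hPb⟩, rfl⟩
  obtain ⟨J, hJ⟩ := Ideal.dvd_iff_le.2 hIP
  have hmul : Ideal.absNorm P * Ideal.absNorm J = p ^ 2 := by rw [← map_mul, ← hJ, hn]
  have hP1 : Ideal.absNorm P ≠ 1 := by
    rw [Ne, Ideal.absNorm_eq_one_iff]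
    exact hPm.ne_top
  have hmem : ∀ u : HeightOneSpectrum (𝓞 K), (p : 𝓞 K) ∈ u.asIdeal ↔ I ≤ u.asIdeal := by
    intro u
    rw [hI, Ideal.span_singleton_le_iff_mem]
  obtain ⟨i, hi, hPi⟩ := (Nat.dvd_prime_pow hp).1 (Dvd.intro _ hmul)
  interval_cases i
  · exact absurd (by simpa using hPi) hP1
  · rw [pow_one] at hPi
    have hJp : Ideal.absNorm J = p := by
      rw [hPi, sq] at hmul
      exact Nat.eq_of_mul_eq_mul_left hp.pos hmul
    have hJpr : J.IsPrime := Ideal.isPrime_of_irreducible_absNorm (by rw [hJp]; exact hp)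
    have hJb : J ≠ ⊥ := by
      intro h
      rw [h, Ideal.absNorm_bot] at hJp
      exact hp.ne_zero hJp.symm
    obtain ⟨w, hw⟩ : ∃ w : HeightOneSpectrum (𝓞 K), w.asIdeal = J := ⟨⟨J, hJpr, hJb⟩, rfl⟩
    have key : ∀ u : HeightOneSpectrum (𝓞 K), (p : 𝓞 K) ∈ u.asIdeal ↔ u = v ∨ u = w := by
      intro u
      rw [hmem, hJ, u.isPrime.mul_le]
      constructor
      · rintro (h | h)
        · left
          exact nd_eq u v (by rw [hv]; exact h)
        · right
          exact nd_eq u w (by rw [hw]; exact h)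
      · rintro (h | h)
        · left
          rw [h, hv]
        · right
          rw [h, hw]
    by_cases hvw : v = w
    · right; left
      refine ⟨v, by rw [hv, hPi], fun u => ?_⟩
      rw [key, ← hvw, or_self]
    · left
      exact ⟨v, w, hvw, by rw [hv, hPi], by rw [hw, hJp], key⟩
  · right; right
    have hJ1 : Ideal.absNorm J = 1 := by
      rw [hPi] at hmul
      exact Nat.eq_of_mul_eq_mul_left (pow_pos hp.pos 2) (by rw [hmul, mul_one])
    rw [Ideal.absNorm_eq_one_iff] at hJ1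
    rw [hJ1, Ideal.mul_top] at hJ
    refine ⟨v, by rw [hv, hPi], fun u => ?_⟩
    rw [hmem, hJ]
    constructor
    · intro h
      exact nd_eq u v (by rw [hv]; exact h)
    · intro h
      rw [h, hv]

end Pool.Agent.CN
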